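import Pool.Agent.K1H29.AC.Crs

/-!
A regularity criterion for the periodic Navier-Stokes equations which needs smallness at a small proportion
of the scales only. Equivalently: a large velocity requires previous activity at most of the scales.

For a smooth solution on `[0, T)` let `D m` be a bound, for all times `t < T`, of the average
`∫_0^t exp (-ν 4^m (t - s)) strain m (u s) ds`: the deformation which the frequencies below `2^m` produce
within the viscous time `1 / (ν 4^m)` of the scale `2^m`. It is a dimensionless number for each scale. If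
`D m` is small at some of the scales only, then only these scales transfer little energy to the small scales.
The theorem says that this suffices: if the product of the numbers `1 / (2000 D m)`, over those scales
`J ≤ m ≤ N` where `D m < 1 / 2000`, exceeds `(10^11 E / ν² + 1)² 4^N`, then the velocity is `O(8^(N/2))` on
`[0, T)`. Nothing is assumed at the other scales. The scale `J` is given by the smoothness of the initial
velocity, `E` is its energy.

So for a solution whose velocity is unbounded the product is at most `(10^11 E / ν² + 1)² 4^N` for every `N`,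
and the proportion of the scales `m ≤ N` with `D m < δ` is at most `log 4 / log (1 / (2000 δ)) + O(1 / N)`,
which is small if `δ` is small.
-/

open Set Pool.Agent.K1H29.AC

/-- Let `ν > 0`, let `(u, p)` be a smooth periodic solution of the Navier-Stokes equations on `[0, T) × ℝ³`
(so that it is enough to know `u` and the numbers `D m` before the time `T`), `1 ≤ J ≤ N`,
`10^15 ∑ |k|⁶ |u₀^(k)|² ≤ ν² 32^J`, and let
`∫_0^t exp (-ν 4^m (t - s)) strain m (u s) ds ≤ D m` for all `t < T` and `J ≤ m ≤ N`, where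
`strain m (v) = ∑_{|k_j| < 2^m} 2 π |k| |v^(k)|`. If
`∏_{m = J}^N max (1, 1 / (2000 D m)) > (10^11 E / ν² + 1)² 4^N`, `E = ∫ |u₀|²`, then
`|u_i|² ≤ 8^(N + 4) (E + ν²)` on `[0, T)`. -/
theorem Pool.Agent.Results.MP_6bf1e5_an.ActiveScales.result
    {ν T : ℝ} (hν : 0 < ν) {u : ℝ → (Fin 3 → ℝ) → Fin 3 → ℝ} {p : ℝ → (Fin 3 → ℝ) → ℝ}
    (h : H459R3.NS.IsSol ν T u p) {J N : ℕ} (hJ : 1 ≤ J) (hJN : J ≤ N)
    (h0 : 10 ^ 15 * ∑' k : Fin 3 → ℤ, (∑ j, (k j : ℝ) ^ 2) ^ 3 *
      ∑ i, ‖H459R3.NS.fr (fun y => u 0 y i) k‖ ^ 2 ≤ ν ^ 2 * 32 ^ J) {D : ℕ → ℝ}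
    (hD : ∀ m ∈ Finset.Icc J N, ∀ t ∈ Ico 0 T,
      ∫ s in (0 : ℝ)..t, Real.exp (-(ν * 4 ^ m * (t - s))) * strain m (u s) ≤ D m)
    (hprod : (10 ^ 11 * (H459R3.NS.energy (u 0) / ν ^ 2) + 1) ^ 2 * 4 ^ N
      < ∏ m ∈ Finset.Icc J N, max 1 (1 / (2000 * D m))) :
    ∀ t ∈ Ico 0 T, ∀ x i, (u t x i) ^ 2 ≤ 8 ^ (N + 4) * (H459R3.NS.energy (u 0) + ν ^ 2) :=
  fun t ht => window hν h hJ hJN hD (init_le h (ht.1.trans_lt ht.2)) h0 hprod t ht
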