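import Pool.Agent.K1H29.NC.I5
import Pool.Agent.K1H29.NC.BlkI
import Pool.Agent.K1H29.NC.Zero

/-!
Global regularity of the Navier-Stokes equations on every noncommutative three-dimensional torus with an
irrational parameter.

* `K1H29.NC.Sieve`, `BlkI`: if a coordinate of `Θ` is irrational, then at infinitely many scales `N` (the
  denominators of its good approximations) the multiplication by a function with frequencies at most `M ≥ N`
  has norm at most `C (M/N)^(1/2) M` in the algebra of the noncommutative torus: at `M = N` as in the plane,
  instead of `M^(3/2)`.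
* `K1H29.NC.I3`, `I4`: the energy flux through such a scale is bounded by the dissipation near the scale;
  averaging over many of these scales shows that the energy of the high frequencies is uniformly small.
* `K1H29.NC.I1`, `I2`, `I4`: the enstrophy cannot pass a barrier given by one such scale.
* `K1H29.NC.W1` to `W7`, `I5`: uniform bounds of all Sobolev norms and the limit of the Galerkin
  approximations.
* `K1H29.NC.U1`, `U2`: uniqueness.
* `K1H29.NC.Zero`: for `Θ = 0` the equations are the Navier-Stokes equations.
-/

open Pool.Agent.H356R3.NS Pool.Agent.K1H29.NC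

/-- If `Θ ∈ ℝ³` has an irrational coordinate, then the Navier-Stokes equations on the noncommutative torus
`T³_Θ` (at `Θ = 0`, the Navier-Stokes equations) have, for every viscosity `ν > 0` and every smooth periodic
divergence free initial velocity, a smooth solution for all times, and its velocity is unique. -/
theorem Pool.Agent.Results.MP_6bf1e5_an.NoncommutativeTorus.result
    (Θ : Fin 3 → ℝ) (hΘ : ∃ i, Irrational (Θ i)) (ν : ℝ) (hν : 0 < ν) (v : R3 → R3) (hv : Data v) :
    ∃ u p, Sol (wt Θ) ν v u p ∧
      ∀ u' p', Sol (wt Θ) ν v u' p' → ∀ t, 0 ≤ t → u' t = u t := by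
  obtain ⟨u, p, hup⟩ := inf_regular (wt_Wt Θ) (blkInf_wt hΘ) hν hv
  exact ⟨u, p, hup, fun u' p' h' t ht => unique (wt_Wt Θ) hν h' hup ht⟩
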