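import Pool.Agent.K1H29.RD.Uniq
import Pool.Agent.K1H29.RD.Rand

/-!
Global regularity of the three-dimensional periodic Navier-Stokes equations restricted to a random set of
frequencies of dimension at most `8/3` (fractal Fourier decimation).

* `K1H29.RD.Prob`: the indicator of the random set is uniformly close to its mean (Hoeffding's inequality
  and a grid).
* `K1H29.RD.L3`, `GN`, `GN2`: therefore `∫ |F|³ ≤ C ∫ |F|² (∫ |∇F|²)^(1/2)` for all functions `F` with
  frequencies in the set, which is the Gagliardo-Nirenberg inequality of the plane.
* `K1H29.RD.Flux3`, `Sob`: the nonlinear term changes the Sobolev norms by sums over triads which are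
  bounded by this inequality; all Sobolev norms of the Galerkin approximations are bounded.
* `K1H29.RD.Lim`, `Phy`, `Uniq`: the limit, its smoothness, uniqueness.

The inequality fails almost surely if the probabilities are at least `c |k|^(-b)` with `b < 1/3`
(`K1H29.RD.Sharp`).
-/

open MeasureTheory ProbabilityTheory Set Pool.Agent.H356R3.NS Pool.Agent.K1H29.RD

/-- Let `A k` (`k ∈ ℤ³`) be independent events with probabilities at most `C |k|^(-1/3)`, and keep the pair
of frequencies `±k` if one of the events `A k`, `A (-k)` happens. Almost surely the Navier-Stokes equations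
restricted to the kept frequencies have, for every viscosity `ν > 0` and every smooth periodic divergence
free initial velocity `v` with kept frequencies, a smooth solution for all times, and its velocity is
unique. -/
theorem Pool.Agent.Results.MP_6bf1e5_an.RandomDecimation.result
    {Ω : Type*} [MeasurableSpace Ω] (P : Measure Ω) [IsProbabilityMeasure P]
    (A : (Fin 3 → ℤ) → Set Ω) (hm : ∀ k, MeasurableSet (A k)) (hi : iIndepSet A P) (C : ℝ)
    (hC : ∀ k, k ≠ 0 → P.real (A k) ≤ C * (√(∑ i, (k i : ℝ) ^ 2)) ^ (-(1 / 3) : ℝ)) :
    ∀ᵐ o ∂P, ∀ (ν : ℝ) (v : R3 → R3), 0 < ν → Data (kept A o) v →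
      ∃ u p, Restricted (kept A o) ν v u p ∧
        ∀ u' p', Restricted (kept A o) ν v u' p' → ∀ t, 0 ≤ t → u' t = u t := by
  filter_upwards [random_planar P A hm hi hC] with o ho ν v hν hv
  obtain ⟨u, p, hup⟩ := planar_regular ho (kept_zero A o) (kept_neg A o) hν hv
  exact ⟨u, p, hup, fun u' p' h' t ht => unique (kept_neg A o) hν h' hup ht⟩
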