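import Pool.Agent.K1H29.SH.Fin

/-!
Global regularity of the periodic Navier-Stokes (or Euler) equations with an additional linear damping
which is strong only at sparse scales.

The dissipation is the Fourier multiplier `m(k) = 4 π² ν |k|² + d(k)`. The theorem says that a given smooth
initial velocity `v` has a global smooth solution as soon as, beyond a scale which depends only on `v` and on a
lower bound `c` of `m`, the sum of `2^(-5 n / 2) inf_{|k| ≥ 2^n} m(k)` over some (finite or infinite) range of
scales exceeds an absolute multiple of the `L²` norm of `v`.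

* If the sum over all scales diverges, then all smooth initial velocities have global smooth solutions; no
  monotonicity, doubling or regularity of `m` is assumed, and `m` may exceed the Navier-Stokes dissipation at
  sparse scales only.
* For `ν > 0` (take `c = 4 π² ν`) it is enough that for one large `N` the frequencies in the window
  `N ≤ |k| ≤ C N^(5/4)` are damped at the constant rate `C' |v|_{L²} N^(5/2)`: the sum then has one term.
-/

open Filter Pool.Agent.H356R3.NS Pool.Agent.K1H29.SH

/-- Let `v` be a smooth periodic divergence free field on `ℝ³` and `c > 0`. There is a scale `n0` such that the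
following holds. Let `ν ≥ 0` and let `d ≥ 0` be an even multiplier of at most polynomial growth. Suppose that
`4 π² ν |k|² + d(k) ≥ μ n` for all frequencies `|k| ≥ 2^n`, where `μ n ≥ c` for `n > n0` and `μ n → ∞`. If
`∑_{n0 < n ≤ n1} 2^(-5 n / 2) μ n > 3·10⁸ (∫ |v|²)^(1/2)` for some `n1`, then the equation
`∂_t u + u·∇u = ν Δ u - d(D) u - ∇p`, `div u = 0`, `u(0) = v` has a global smooth periodic solution. -/
theorem Pool.Agent.Results.MP_6bf1e5_an.SparseHyperdissipation.result
    (v : R3 → R3) (hv : Data v) (c : ℝ) (hc : 0 < c) :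
    ∃ n0 : ℕ, ∀ (ν : ℝ) (d : (Fin 3 → ℤ) → ℝ) (μ : ℕ → ℝ), 0 ≤ ν → (∀ k, 0 ≤ d k) →
      (∀ k, d (-k) = d k) → (∃ (C : ℝ) (r : ℕ), ∀ k, d k ≤ C * (1 + fn k) ^ r) →
      (∀ n k, (2 : ℝ) ^ n ≤ fn k → μ n ≤ 4 * Real.pi ^ 2 * ν * fn k ^ 2 + d k) →
      (∀ n, n0 < n → c ≤ μ n) → Tendsto μ atTop atTop →
      (∃ n1, 3 * 10 ^ 8 * √(energy v) < ∑ n ∈ Finset.Ioc n0 n1, μ n / (2 : ℝ) ^ ((5 / 2 : ℝ) * n)) →
      ∃ u p, AdmD ν d v u p :=
  quant hv hc
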